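import Pool.Agent.H505R3.SquarePlusOne
import Pool.Agent.H505R2.Core

set_option autoImplicit false

namespace Pool.Agent.H505R3

open Finset Filter Pool.Agent.H505R2

/-- finite version: one of three values has the right parity -/
theorem count8 (E : ℕ → Prop) (hE : ∀ a b : ℕ, a ≠ 0 → b ≠ 0 → ¬ E a → ¬ E b → E (a * b)) (I : ℕ)
    (hI : 1 ≤ I) (k X : ℕ) (hX : 1032 * k ^ 3 ≤ X) :
    (k : ℝ) * (Real.exp (-96) ^ I / 2) - (2 : ℝ) ^ (1292 * 2 ^ I) ≤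
      3 * (({n : ℕ | n ≤ X ∧ 0 < n ∧ 8 ∣ n ∧ Rough (2 ^ 2 ^ I) (n ^ 2 + 1) ∧
        E (n ^ 2 + 1)} : Set ℕ).ncard : ℝ) := by
  classical
  refine (sift8 I hI k).trans ?_
  obtain ⟨T, hT⟩ : ∃ T, T = (Ioc 0 k).filter (fun n => ∀ p ∈ S1 I, ¬ D8 p n) := ⟨_, rfl⟩
  rw [← hT]
  set G : Set ℕ := {n : ℕ | n ≤ X ∧ 0 < n ∧ 8 ∣ n ∧ Rough (2 ^ 2 ^ I) (n ^ 2 + 1) ∧ E (n ^ 2 + 1)}
    with hG
  have hGf : G.Finite := (Set.finite_Iic X).subset fun _ hn => hn.1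
  have hmem : ∀ m ∈ T, 0 < m ∧ m ≤ k ∧ Rough (2 ^ 2 ^ I) ((8 * m) ^ 2 + 1) ∧
      Rough (2 ^ 2 ^ I) ((2 * (8 * m) ^ 2) ^ 2 + 1) := by
    intro m hm
    rw [hT, mem_filter, mem_Ioc] at hm
    have := rough8 hm.2
    exact ⟨hm.1.1, hm.1.2, this.1, this.2⟩
  have hbound : ∀ m : ℕ, 0 < m → m ≤ k → 8 * m ≤ X ∧ 2 * (8 * m) ^ 2 ≤ X ∧
      2 * (8 * m) ^ 3 + 8 * m ≤ X := by
    intro m hm hmk
    have h1 : m ≤ m ^ 3 := Nat.le_self_pow (by norm_num) m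
    have h2 : m ^ 2 ≤ m ^ 3 := Nat.pow_le_pow_right hm (by norm_num)
    have h3 : m ^ 3 ≤ k ^ 3 := Nat.pow_le_pow_left hmk 3
    refine ⟨by omega, ?_, ?_⟩
    · have : 2 * (8 * m) ^ 2 = 128 * m ^ 2 := by ring
      omega
    · have : 2 * (8 * m) ^ 3 + 8 * m = 1024 * m ^ 3 + 8 * m := by ring
      omega
  obtain ⟨T1, hT1⟩ : ∃ T1, T1 = T.filter (fun m => E ((8 * m) ^ 2 + 1)) := ⟨_, rfl⟩
  obtain ⟨T2, hT2⟩ : ∃ T2, T2 = T.filter (fun m => E ((2 * (8 * m) ^ 2) ^ 2 + 1)) := ⟨_, rfl⟩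
  obtain ⟨T3, hT3⟩ : ∃ T3, T3 = T.filter (fun m => E ((2 * (8 * m) ^ 3 + 8 * m) ^ 2 + 1)) :=
    ⟨_, rfl⟩
  have hcover : T ⊆ T1 ∪ (T2 ∪ T3) := by
    intro m hm
    rw [mem_union, mem_union, hT1, hT2, hT3, mem_filter, mem_filter, mem_filter]
    by_cases h1 : E ((8 * m) ^ 2 + 1)
    · exact Or.inl ⟨hm, h1⟩
    · by_cases h2 : E ((2 * (8 * m) ^ 2) ^ 2 + 1)
      · exact Or.inr (Or.inl ⟨hm, h2⟩)
      · refine Or.inr (Or.inr ⟨hm, ?_⟩)
        rw [← ident]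
        exact hE _ _ (by positivity) (by positivity) h1 h2
  have c1 : T1.card ≤ G.ncard := by
    rw [← Set.ncard_coe_finset]
    apply Set.ncard_le_ncard_of_injOn (fun m => 8 * m) _ _ hGf
    · intro m hm
      rw [mem_coe, hT1, mem_filter] at hm
      obtain ⟨h0, hk, r1, r2⟩ := hmem m hm.1
      exact ⟨(hbound m h0 hk).1, by omega, Dvd.intro _ rfl, r1, hm.2⟩
    · intro a _ b _ hab
      have h1 : 8 * a = 8 * b := hab
      omega
  have c2 : T2.card ≤ G.ncard := by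
    rw [← Set.ncard_coe_finset]
    apply Set.ncard_le_ncard_of_injOn (fun m => 2 * (8 * m) ^ 2) _ _ hGf
    · intro m hm
      rw [mem_coe, hT2, mem_filter] at hm
      obtain ⟨h0, hk, r1, r2⟩ := hmem m hm.1
      exact ⟨(hbound m h0 hk).2.1, by positivity, ⟨16 * m ^ 2, by ring⟩, r2, hm.2⟩
    · intro a _ b _ hab
      have h0 : 2 * (8 * a) ^ 2 = 2 * (8 * b) ^ 2 := hab
      have h1 : (8 * a) ^ 2 = (8 * b) ^ 2 := by omega
      have h2 : 8 * a = 8 * b := Nat.pow_left_injective (n := 2) (by norm_num) h1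
      omega
  have c3 : T3.card ≤ G.ncard := by
    rw [← Set.ncard_coe_finset]
    apply Set.ncard_le_ncard_of_injOn (fun m => 2 * (8 * m) ^ 3 + 8 * m) _ _ hGf
    · intro m hm
      rw [mem_coe, hT3, mem_filter] at hm
      obtain ⟨h0, hk, r1, r2⟩ := hmem m hm.1
      refine ⟨(hbound m h0 hk).2.2, by positivity, ⟨128 * m ^ 3 + m, by ring⟩, ?_, hm.2⟩
      rw [← ident]
      exact r1.mul r2
    · have hmono : StrictMono (fun m : ℕ => 2 * (8 * m) ^ 3 + 8 * m) := by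
        intro a b hab
        have h1 : (8 * a) ^ 3 ≤ (8 * b) ^ 3 := Nat.pow_le_pow_left (by omega) 3
        show 2 * (8 * a) ^ 3 + 8 * a < 2 * (8 * b) ^ 3 + 8 * b
        omega
      exact hmono.injective.injOn
  have h1 := (card_le_card hcover).trans ((card_union_le _ _).trans
    (Nat.add_le_add_left (card_union_le _ _) _))
  have h2 : T.card ≤ 3 * G.ncard := by omega
  exact_mod_cast h2

/-- choice of the sieve level -/
lemma exists_levelG (c : ℕ) (hc : 0 < c) {x : ℝ} (I0 : ℕ) (hx : (2 : ℝ) ^ (c * 2 ^ I0) ≤ x) :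
    ∃ I : ℕ, I0 ≤ I ∧ (2 : ℝ) ^ (c * 2 ^ I) ≤ x ∧ x < 2 ^ (2 * c * 2 ^ I) := by
  set n := ⌊x⌋₊ with hn
  have hxpos : 0 < x := lt_of_lt_of_le (by positivity) hx
  have hn1 : 2 ^ (c * 2 ^ I0) ≤ n := by
    rw [hn]
    apply Nat.le_floor
    push_cast
    exact hx
  have hn0 : n ≠ 0 := by
    have : 0 < 2 ^ (c * 2 ^ I0) := by positivity
    omega
  set L := Nat.log 2 n with hL
  set J := L / c with hJ
  have hLle : c * 2 ^ I0 ≤ L := by
    rw [hL]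
    exact Nat.le_log_of_pow_le (by norm_num) hn1
  have hJ1 : 2 ^ I0 ≤ J := by
    rw [hJ, Nat.le_div_iff_mul_le hc]
    rw [mul_comm]
    exact hLle
  have hJ0 : J ≠ 0 := by
    have : 0 < 2 ^ I0 := by positivity
    omega
  refine ⟨Nat.log 2 J, ?_, ?_, ?_⟩
  · exact Nat.le_log_of_pow_le (by norm_num) hJ1
  · have h1 : 2 ^ Nat.log 2 J ≤ J := Nat.pow_log_le_self 2 hJ0
    have h2 : c * 2 ^ Nat.log 2 J ≤ L :=
      (Nat.mul_le_mul_left c h1).trans (by rw [hJ]; exact Nat.mul_div_le _ _)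
    have h3 : 2 ^ (c * 2 ^ Nat.log 2 J) ≤ n :=
      (Nat.pow_le_pow_right (by norm_num) h2).trans (Nat.pow_log_le_self 2 hn0)
    have h4 : ((2 ^ (c * 2 ^ Nat.log 2 J) : ℕ) : ℝ) ≤ (n : ℝ) := by exact_mod_cast h3
    push_cast at h4
    exact h4.trans (Nat.floor_le hxpos.le)
  · have h1 : J < 2 ^ (Nat.log 2 J + 1) := Nat.lt_pow_succ_log_self (by norm_num) J
    have h2 : L + 1 ≤ 2 * c * 2 ^ Nat.log 2 J := by
      have h3 : L < c * (J + 1) := by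
        have := Nat.lt_mul_div_succ L hc
        rw [← hJ] at this
        exact this
      have h4 : c * (J + 1) ≤ c * 2 ^ (Nat.log 2 J + 1) := Nat.mul_le_mul_left c h1
      calc L + 1 ≤ c * (J + 1) := h3
        _ ≤ c * 2 ^ (Nat.log 2 J + 1) := h4
        _ = 2 * c * 2 ^ Nat.log 2 J := by rw [pow_succ]; ring
    have h3 : n < 2 ^ (L + 1) := Nat.lt_pow_succ_log_self (by norm_num) n
    have h4 : n + 1 ≤ 2 ^ (2 * c * 2 ^ Nat.log 2 J) :=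
      (Nat.succ_le_of_lt h3).trans (Nat.pow_le_pow_right (by norm_num) h2)
    have h5 : ((n + 1 : ℕ) : ℝ) ≤ ((2 ^ (2 * c * 2 ^ Nat.log 2 J) : ℕ) : ℝ) := by exact_mod_cast h4
    push_cast at h5
    exact lt_of_lt_of_le (Nat.lt_floor_add_one x) h5

lemma exp96I (I : ℕ) : (1 : ℝ) ≤ Real.exp (-96) ^ I * 2 ^ (139 * I) := by
  rw [pow_mul, ← mul_pow]
  apply one_le_pow₀
  rw [Real.exp_neg, inv_mul_eq_div, one_le_div (Real.exp_pos _)]
  exact exp96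

lemma pow_big2 (I : ℕ) (hI : 10 ≤ I) : 139 * I + 2 ≤ 8 * 2 ^ I := by
  induction I, hI using Nat.le_induction with
  | base => norm_num
  | succ I hI ih =>
    rw [pow_succ]
    omega

theorem main8 : ∃ X₀ : ℕ, ∀ E : ℕ → Prop,
    (∀ a b : ℕ, a ≠ 0 → b ≠ 0 → ¬ E a → ¬ E b → E (a * b)) → ∀ X : ℕ, X₀ ≤ X →
      (X : ℝ) ^ ((1 : ℝ) / 3) / Real.log X ^ 139 ≤
        (({n : ℕ | n ≤ X ∧ 0 < n ∧ 8 ∣ n ∧
          (∀ p : ℕ, p.Prime → p ∣ n ^ 2 + 1 → (X : ℝ) ^ ((1 : ℝ) / 8000) < p) ∧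
          E (n ^ 2 + 1)} : Set ℕ).ncard : ℝ) := by
  obtain ⟨B, hB⟩ : ∃ B : ℝ, B = (2 : ℝ) ^ (1300 * 2 ^ 10) := ⟨_, rfl⟩
  have hev : ∀ᶠ X : ℕ in atTop, B + 1 ≤ (X : ℝ) ^ ((1 : ℝ) / 3) / 11 ∧
      (12 : ℝ) * 11 ≤ (X : ℝ) ^ ((1 : ℝ) / 3) ∧
      (12 : ℝ) ≤ (X : ℝ) ^ ((1 : ℝ) / 3 - 2600 / 8000) ∧ 2 ≤ X := by
    have e1 := ev_ge (show (0 : ℝ) < 1 / 3 by norm_num) ((B + 1) * 11)
    have e2 := ev_ge (show (0 : ℝ) < 1 / 3 by norm_num) ((12 : ℝ) * 11)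
    have e3 := ev_ge (show (0 : ℝ) < 1 / 3 - 2600 / 8000 by norm_num) (12 : ℝ)
    filter_upwards [e1, e2, e3, eventually_ge_atTop 2] with X h1 h2 h3 h4
    refine ⟨?_, h2, h3, h4⟩
    rw [le_div_iff₀ (by norm_num)]
    exact h1
  rw [eventually_atTop] at hev
  obtain ⟨X₀, hX₀⟩ := hev
  refine ⟨X₀, fun E hE X hX => ?_⟩
  obtain ⟨a1, a2, a3, a4⟩ := hX₀ X hX
  have hX0 : (0 : ℝ) < X := by exact_mod_cast (by omega : 0 < X)
  have hX1 : (1 : ℝ) < X := by exact_mod_cast (by omega : 1 < X)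
  set x : ℝ := (X : ℝ) ^ ((1 : ℝ) / 3) with hx
  have hx3 : x ^ 3 = X := by
    rw [hx, ← Real.rpow_natCast, ← Real.rpow_mul hX0.le]
    norm_num
  have hxpos : 0 < x := by positivity
  set K : ℕ := ⌊x / 11⌋₊ with hK
  have hK1 : (K : ℝ) ≤ x / 11 := Nat.floor_le (by positivity)
  have hK2 : x / 11 < K + 1 := Nat.lt_floor_add_one _
  have hK3 : x / 12 ≤ K := by
    have : x / 11 - 1 ≥ x / 12 := by linarith
    linarith
  have hKX : 1032 * K ^ 3 ≤ X := by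
    have h1 : (K : ℝ) ^ 3 ≤ (x / 11) ^ 3 := pow_le_pow_left₀ (Nat.cast_nonneg _) hK1 3
    have h2 : (1032 : ℝ) * (K : ℝ) ^ 3 ≤ X := by
      rw [div_pow, hx3] at h1
      norm_num at h1
      linarith
    exact_mod_cast h2
  obtain ⟨I, hI0, hI1, hI2⟩ := exists_levelG 1300 (by norm_num) (x := (K : ℝ)) 10 (by
    rw [← hB]; linarith)
  have hcount := count8 E hE I (by omega) K X hKX
  -- the sieve bound is large
  have hE1 := exp96I I
  have hP := pow_big2 I hI0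
  set W : ℝ := (2 : ℝ) ^ (139 * I) with hW
  have hWpos : 0 < W := by positivity
  have hlow : (K : ℝ) / (4 * W) ≤ (K : ℝ) * (Real.exp (-96) ^ I / 2) - (2 : ℝ) ^ (1292 * 2 ^ I) := by
    have h1 : (2 : ℝ) ^ (1292 * 2 ^ I) * (4 * W) ≤ K := by
      refine le_trans ?_ hI1
      rw [hW, show (4 : ℝ) = 2 ^ 2 by norm_num, ← pow_add, ← pow_add]
      apply pow_le_pow_right₀ (by norm_num)
      omega
    have h2 : (2 : ℝ) ^ (1292 * 2 ^ I) ≤ K / (4 * W) := by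
      rw [le_div_iff₀ (by positivity)]
      exact h1
    have h3 : (K : ℝ) / (2 * W) ≤ (K : ℝ) * (Real.exp (-96) ^ I / 2) := by
      rw [div_le_iff₀ (by positivity)]
      have : (K : ℝ) * (Real.exp (-96) ^ I / 2) * (2 * W) = K * (Real.exp (-96) ^ I * W) := by ring
      rw [this]
      have hK0 : (0 : ℝ) ≤ K := Nat.cast_nonneg _
      nlinarith
    have h4 : (K : ℝ) / (2 * W) = K / (4 * W) + K / (4 * W) := by field_simp; ring
    linarith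
  -- sifting limit
  have hz : (X : ℝ) ^ ((1 : ℝ) / 8000) < (2 : ℝ) ^ 2 ^ I := by
    have h1 : ((X : ℝ) ^ ((1 : ℝ) / 8000)) ^ (2600 : ℕ) < ((2 : ℝ) ^ 2 ^ I) ^ (2600 : ℕ) := by
      rw [← Real.rpow_natCast, ← Real.rpow_mul hX0.le, ← pow_mul]
      have e1 : (1 : ℝ) / 8000 * ((2600 : ℕ) : ℝ) = 2600 / 8000 := by push_cast; ring
      rw [e1, mul_comm (2 ^ I) 2600]
      refine lt_of_le_of_lt ?_ hI2
      refine le_trans ?_ hK3
      rw [le_div_iff₀ (by norm_num), hx]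
      have h2 : (X : ℝ) ^ ((1 : ℝ) / 3) = (X : ℝ) ^ ((2600 : ℝ) / 8000) *
          (X : ℝ) ^ ((1 : ℝ) / 3 - 2600 / 8000) := by
        rw [← Real.rpow_add hX0]
        congr 1
        ring
      rw [h2]
      exact mul_le_mul_of_nonneg_left a3 (by positivity)
    exact lt_of_pow_lt_pow_left₀ 2600 (by positivity) h1
  -- comparison with powers of the logarithm
  have hlog : 0 < Real.log X := Real.log_pos hX1
  have hKX' : (K : ℝ) ≤ X := by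
    have h1 : x ≤ x ^ 3 := le_self_pow₀ (by linarith) (by norm_num)
    rw [hx3] at h1
    linarith
  have hI3 : (2 : ℝ) ^ I * 2 ≤ Real.log X := by
    have h1 : Real.log ((2 : ℝ) ^ (1300 * 2 ^ I)) ≤ Real.log X :=
      Real.log_le_log (by positivity) (hI1.trans hKX')
    rw [Real.log_pow] at h1
    push_cast at h1
    have h2 := Real.log_two_gt_d9
    have h3 : (0 : ℝ) < 2 ^ I := by positivity
    nlinarith
  have hI4 : W * 144 ≤ Real.log X ^ 139 := by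
    calc W * 144 ≤ W * 2 ^ 139 := mul_le_mul_of_nonneg_left (by norm_num) hWpos.le
      _ = ((2 : ℝ) ^ I * 2) ^ 139 := by rw [mul_pow, hW, ← pow_mul, mul_comm 139 I]
      _ ≤ Real.log X ^ 139 := pow_le_pow_left₀ (by positivity) hI3 139
  have hfin : x / Real.log X ^ 139 ≤ (K : ℝ) / (4 * W) / 3 := by
    rw [div_div, div_le_div_iff₀ (by positivity) (by positivity)]
    have h1 : x * (4 * W * 3) ≤ (12 * K) * (4 * W * 3) :=
      mul_le_mul_of_nonneg_right (by linarith) (by positivity)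
    have h2 : (12 * (K : ℝ)) * (4 * W * 3) = K * (W * 144) := by ring
    rw [h2] at h1
    exact h1.trans (mul_le_mul_of_nonneg_left hI4 (Nat.cast_nonneg _))
  refine hfin.trans ?_
  rw [div_le_iff₀ (by norm_num)]
  refine (hlow.trans hcount).trans ?_
  rw [mul_comm]
  apply mul_le_mul_of_nonneg_right _ (by norm_num)
  have hsub : ({n : ℕ | n ≤ X ∧ 0 < n ∧ 8 ∣ n ∧ Rough (2 ^ 2 ^ I) (n ^ 2 + 1) ∧ E (n ^ 2 + 1)}
      : Set ℕ) ⊆ {n : ℕ | n ≤ X ∧ 0 < n ∧ 8 ∣ n ∧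
          (∀ p : ℕ, p.Prime → p ∣ n ^ 2 + 1 → (X : ℝ) ^ ((1 : ℝ) / 8000) < p) ∧
          E (n ^ 2 + 1)} := by
    rintro n ⟨h1, h2, h3, h4, h5⟩
    refine ⟨h1, h2, h3, fun p hp hd => hz.trans ?_, h5⟩
    exact_mod_cast h4 p hp hd
  exact_mod_cast Set.ncard_le_ncard hsub ((Set.finite_Iic X).subset fun _ hn => hn.1)

end Pool.Agent.H505R3
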