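import Pool.Agent.H505R3.SieveG
import Pool.Agent.H505R2.Forms

/-!
The identity `(N ^ 2 + 1) * ((2 N ^ 2) ^ 2 + 1) = (2 N ^ 3 + N) ^ 2 + 1`, with `N` divisible by `8`,
and the sieve for `N ^ 2 + 1`, `2 N ^ 2 - 2 N + 1`, `2 N ^ 2 + 2 N + 1`.
-/

set_option autoImplicit false

namespace Pool.Agent.H505R3

open Finset Pool.Agent.H505R2

theorem sift_gen (h : ℕ) (hh : h ≤ 8) (S : Finset ℕ) (hS : ∀ p ∈ S, p.Prime)
    (D : ℕ → ℕ → Prop) [∀ p, DecidablePred (D p)] (hD : ∀ p ∈ S, ∀ n, D p n → D p (n % p))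
    (h45 : ∀ p ∈ S, 5 * ((range p).filter (D p)).card ≤ 4 * p)
    (hκ : ∀ p ∈ S, ((range p).filter (D p)).card ≤ 2 * h) (I : ℕ) (hI : 1 ≤ I)
    (hSY : ∀ p ∈ S, p ≤ 2 ^ 2 ^ I) (k : ℕ) :
    (k : ℝ) * (Real.exp (-(32 * h)) ^ I / 2) - (2 : ℝ) ^ ((420 * h + 32) * 2 ^ I)
      ≤ (((Ioc 0 k).filter (fun n => ∀ p ∈ S, ¬ D p n)).card : ℝ) := by
  have h1 := sieve_lowerG (Ω := fun p => (range p).filter (D p)) h hh S hS h45
    (fun p _ => filter_subset _ _) hκ I hI hSY k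
  refine h1.trans ?_
  have hsub : (Ioc 0 k).filter (fun n => ∀ p ∈ S, n % p ∉ (range p).filter (D p)) ⊆
      (Ioc 0 k).filter (fun n => ∀ p ∈ S, ¬ D p n) := by
    intro n hn
    rw [mem_filter] at hn ⊢
    refine ⟨hn.1, fun p hp hd => hn.2 p hp ?_⟩
    rw [mem_filter, mem_range]
    exact ⟨Nat.mod_lt _ (hS p hp).pos, hD p hp n hd⟩
  exact_mod_cast card_le_card hsub

/-- primes `p ≡ 1 mod 4` up to the sifting limit -/
def S1 (I : ℕ) : Finset ℕ := (Icc 5 (2 ^ 2 ^ I)).filter (fun p => p.Prime ∧ p % 4 = 1)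

lemma mem_S1 {I p : ℕ} : p ∈ S1 I ↔ 5 ≤ p ∧ p ≤ 2 ^ 2 ^ I ∧ p.Prime ∧ p % 4 = 1 := by
  rw [S1, mem_filter, mem_Icc, and_assoc]

/-- `p` divides one of the three quadratics at `N = 8 n` -/
def D8 (p n : ℕ) : Prop :=
  (p : ℤ) ∣ 64 * (n : ℤ) ^ 2 + 0 * n + 1 ∨ (p : ℤ) ∣ 128 * (n : ℤ) ^ 2 + (-16) * n + 1 ∨
    (p : ℤ) ∣ 128 * (n : ℤ) ^ 2 + 16 * n + 1

instance (p : ℕ) : DecidablePred (D8 p) := fun n => by unfold D8; infer_instance

lemma D8_mod {p n : ℕ} (h : D8 p n) : D8 p (n % p) := by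
  rcases h with h | h | h
  · exact Or.inl ((quad_mod p _ _ _ n).2 h)
  · exact Or.inr (Or.inl ((quad_mod p _ _ _ n).2 h))
  · exact Or.inr (Or.inr ((quad_mod p _ _ _ n).2 h))

lemma not_dvd_two_pow {p : ℕ} (hp : p.Prime) (h5 : 5 ≤ p) (e : ℕ) : ¬ (p : ℤ) ∣ 2 ^ e := by
  intro h
  have h1 : p ∣ 2 ^ e := by exact_mod_cast h
  have := (Nat.prime_dvd_prime_iff_eq hp Nat.prime_two).1 (hp.dvd_of_dvd_pow h1)
  omega

lemma D8_card {p : ℕ} (hp : p.Prime) (h5 : 5 ≤ p) : ((range p).filter (D8 p)).card ≤ 6 := by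
  have h1 := roots_le_two p hp 64 0 1 (by
    have := not_dvd_two_pow hp h5 6; norm_num at this; exact this)
  have h2 := roots_le_two p hp 128 (-16) 1 (by
    have := not_dvd_two_pow hp h5 7; norm_num at this; exact this)
  have h3 := roots_le_two p hp 128 16 1 (by
    have := not_dvd_two_pow hp h5 7; norm_num at this; exact this)
  have h4 : (range p).filter (D8 p) ⊆
      (range p).filter (fun r : ℕ => (p : ℤ) ∣ 64 * (r : ℤ) ^ 2 + 0 * r + 1) ∪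
      ((range p).filter (fun r : ℕ => (p : ℤ) ∣ 128 * (r : ℤ) ^ 2 + (-16) * r + 1) ∪
      (range p).filter (fun r : ℕ => (p : ℤ) ∣ 128 * (r : ℤ) ^ 2 + 16 * r + 1)) := by
    intro r hr
    rw [mem_filter] at hr
    rw [mem_union, mem_union, mem_filter, mem_filter, mem_filter]
    rcases hr.2 with h | h | h
    · exact Or.inl ⟨hr.1, h⟩
    · exact Or.inr (Or.inl ⟨hr.1, h⟩)
    · exact Or.inr (Or.inr ⟨hr.1, h⟩)
  have h5 := (card_le_card h4).trans ((card_union_le _ _).trans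
    (Nat.add_le_add_left (card_union_le _ _) _))
  omega

lemma D8_card5 : ((range 5).filter (D8 5)).card ≤ 4 := by decide

theorem sift8 (I : ℕ) (hI : 1 ≤ I) (k : ℕ) :
    (k : ℝ) * (Real.exp (-96) ^ I / 2) - (2 : ℝ) ^ (1292 * 2 ^ I)
      ≤ (((Ioc 0 k).filter (fun n => ∀ p ∈ S1 I, ¬ D8 p n)).card : ℝ) := by
  have h := sift_gen 3 (by norm_num) (S1 I) (fun p hp => (mem_S1.1 hp).2.2.1) D8
    (fun p _ n h => D8_mod h) (by
      intro p hp
      obtain ⟨h5, -, hpp, h4⟩ := mem_S1.1 hp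
      by_cases hp5 : p = 5
      · subst hp5
        have := D8_card5
        omega
      · have h13 : 13 ≤ p := by
          by_contra hcon
          have h9 : p = 9 := by omega
          subst h9
          revert hpp
          norm_num
        have := D8_card hpp h5
        omega) (by
      intro p hp
      obtain ⟨h5, -, hpp, h4⟩ := mem_S1.1 hp
      exact D8_card hpp h5) I hI (fun p hp => (mem_S1.1 hp).2.1) k
  have e : (-(32 * ((3 : ℕ) : ℝ))) = -96 := by norm_num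
  rw [e] at h
  exact h

/-- `z`-rough: all prime factors exceed `z` -/
def Rough (z m : ℕ) : Prop := ∀ p : ℕ, p.Prime → p ∣ m → z < p

lemma Rough.mul {z m n : ℕ} (hm : Rough z m) (hn : Rough z n) : Rough z (m * n) := by
  intro p hp hd
  rcases (Nat.Prime.dvd_mul hp).1 hd with h | h
  · exact hm p hp h
  · exact hn p hp h

lemma mod4_of_dvd {p a : ℕ} (hp : p.Prime) (hd : p ∣ a ^ 2 + 1) (hodd : p ≠ 2) : p % 4 = 1 := by
  have := Fact.mk hp
  have h1 : ((a : ZMod p)) ^ 2 = -1 := by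
    have h2 : ((a ^ 2 + 1 : ℕ) : ZMod p) = 0 := (ZMod.natCast_eq_zero_iff _ _).2 hd
    push_cast at h2
    linear_combination h2
  have h3 := ZMod.mod_four_ne_three_of_sq_eq_neg_one h1
  have h4 := hp.eq_two_or_odd
  omega

/-- the two values are rough -/
theorem rough8 {I k : ℕ} (hk : ∀ p ∈ S1 I, ¬ D8 p k) :
    Rough (2 ^ 2 ^ I) ((8 * k) ^ 2 + 1) ∧ Rough (2 ^ 2 ^ I) ((2 * (8 * k) ^ 2) ^ 2 + 1) := by
  have key : ∀ a : ℕ, Even a → (∀ p : ℕ, p.Prime → p ∣ a ^ 2 + 1 → D8 p k) →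
      Rough (2 ^ 2 ^ I) (a ^ 2 + 1) := by
    intro a ha hD p hp hd
    by_contra hcon
    push Not at hcon
    have h2 : p ≠ 2 := by
      rintro rfl
      have h3 : Even (a ^ 2 + 1) := even_iff_two_dvd.2 hd
      have h4 : Odd (a ^ 2 + 1) := (ha.pow_of_ne_zero (by norm_num)).add_one
      exact (Nat.not_even_iff_odd.2 h4) h3
    have h4 := mod4_of_dvd hp hd h2
    have h5 : 5 ≤ p := by
      have := hp.two_le
      by_contra h5
      interval_cases p <;> omega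
    exact hk p (mem_S1.2 ⟨h5, hcon, hp, h4⟩) (hD p hp hd)
  constructor
  · apply key (8 * k) ⟨4 * k, by ring⟩
    intro p hp hd
    left
    have h1 : (p : ℤ) ∣ (((8 * k) ^ 2 + 1 : ℕ) : ℤ) := by exact_mod_cast hd
    convert h1 using 1
    push_cast
    ring
  · apply key (2 * (8 * k) ^ 2) ⟨(8 * k) ^ 2, by ring⟩
    intro p hp hd
    right
    have h1 : (p : ℤ) ∣ (((2 * (8 * k) ^ 2) ^ 2 + 1 : ℕ) : ℤ) := by exact_mod_cast hd
    have h2 : (((2 * (8 * k) ^ 2) ^ 2 + 1 : ℕ) : ℤ) = (128 * (k : ℤ) ^ 2 + (-16) * k + 1) *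
        (128 * (k : ℤ) ^ 2 + 16 * k + 1) := by push_cast; ring
    rw [h2] at h1
    exact (Nat.prime_iff_prime_int.1 hp).dvd_or_dvd h1

lemma ident (N : ℕ) : (N ^ 2 + 1) * ((2 * N ^ 2) ^ 2 + 1) = (2 * N ^ 3 + N) ^ 2 + 1 := by ring

end Pool.Agent.H505R3
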